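import Mathlib

/-!
Rotor walks on rooted ordered trees. The non-root vertices are addresses (Ulam-Harris labelling):
`[]` is the unique child of the root, the children of `v` are `k :: v` for `1 ≤ k ≤ b v`, and the
root itself is `none`.
-/

namespace Pool.Agent.Lib.MP_4b601f_co

/-- The parent of a non-root vertex (`none` is the root). -/
def parent : List ℕ → Option (List ℕ)
  | [] => none
  | _ :: v => some v

/-- One step of the rotor walk on (position, rotors): advance the rotor at the current vertex
modulo `b v + 1`, then move to the parent if it reads 0 and to the child it names otherwise.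
The particle stops once it is back at the root. -/
def step (b : List ℕ → ℕ) (σ : Option (List ℕ) × (List ℕ → ℕ)) :
    Option (List ℕ) × (List ℕ → ℕ) :=
  match σ.1 with
  | none => σ
  | some v =>
    (if (σ.2 v + 1) % (b v + 1) = 0 then parent v else some (((σ.2 v + 1) % (b v + 1)) :: v),
      Function.update σ.2 v ((σ.2 v + 1) % (b v + 1)))

/-- The walk of one particle, `t` steps after it moved from the root to its child `[]`. -/
def walk (b : List ℕ → ℕ) (r : List ℕ → ℕ) (t : ℕ) : Option (List ℕ) × (List ℕ → ℕ) :=
  (step b)^[t] (some [], r)

/-- The particle started with rotors `r` never returns to the root. -/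
def Escapes (b : List ℕ → ℕ) (r : List ℕ → ℕ) : Prop :=
  ∀ t, (walk b r t).1 ≠ none

/-- The rotors left by the particle: the limiting value of the rotor at each vertex. -/
noncomputable def nextRotor (b : List ℕ → ℕ) (r : List ℕ → ℕ) : List ℕ → ℕ :=
  fun v => Filter.atTop.limUnder fun t => (walk b r t).2 v

/-- The escape sequence, indexed from 0: particle number `n + 1` escapes. -/
def escapeSeq (b : List ℕ → ℕ) (r : List ℕ → ℕ) (n : ℕ) : Prop :=
  Escapes b ((nextRotor b)^[n] r)

end Pool.Agent.Lib.MP_4b601f_co
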