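import Mathlib

namespace Pool.Agent.Lib.MP_4b601f_co

open Finset

open Classical in
noncomputable def cnt (b : ℕ) (X : ℕ → ℕ → Prop) (j : ℕ) : ℕ :=
  ((Icc 1 b).filter fun k => X j k).card

def Z (c : ℕ → ℕ) (j : ℕ) : ℕ := j + ∑ i ∈ range (j + 1), c i

def Sq (c : ℕ → ℕ) (n : ℕ) : Prop := ∀ j, n ≠ Z c j

def mat (s : ℕ) (x : ℕ → ℕ → Prop) (j k : ℕ) : Prop :=
  if s < k then x k j else (1 ≤ j ∧ x k (j - 1))

def Phi (b s : ℕ) (x : ℕ → ℕ → Prop) : ℕ → Prop := Sq (cnt b (mat s x))

def shift (f : ℕ → Prop) : ℕ → Prop := fun n => f (n + 1)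

def Le (f e : ℕ → Prop) : Prop :=
  ∃ φ : ℕ → ℕ, StrictMono φ ∧ ∀ n, f n → ∃ i, φ i = n ∧ e i

theorem Z_zero (c : ℕ → ℕ) : Z c 0 = c 0 := by simp [Z]

theorem Z_succ (c : ℕ → ℕ) (j : ℕ) : Z c (j + 1) = Z c j + 1 + c (j + 1) := by
  simp only [Z, sum_range_succ]; omega

theorem Z_strictMono (c : ℕ → ℕ) : StrictMono (Z c) :=
  strictMono_nat_of_lt_succ fun j => by rw [Z_succ]; omega

theorem le_Z (c : ℕ → ℕ) (j : ℕ) : j ≤ Z c j := (Z_strictMono c).id_le j

theorem Sq_zero (c : ℕ → ℕ) : Sq c 0 ↔ c 0 ≠ 0 := by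
  constructor
  · intro h h0
    exact h 0 (by rw [Z_zero, h0])
  · intro h j hj
    have := le_Z c j
    have hj0 : j = 0 := by omega
    subst hj0
    rw [Z_zero] at hj
    exact h hj.symm

theorem cnt_congr {b : ℕ} {X Y : ℕ → ℕ → Prop} {j j' : ℕ}
    (h : ∀ k, 1 ≤ k → k ≤ b → (X j k ↔ Y j' k)) : cnt b X j = cnt b Y j' := by
  unfold cnt
  congr 1
  ext k
  simp only [mem_filter, mem_Icc]
  exact ⟨fun a => ⟨a.1, (h k a.1.1 a.1.2).1 a.2⟩, fun a => ⟨a.1, (h k a.1.1 a.1.2).2 a.2⟩⟩

theorem cnt_eq_zero {b : ℕ} {X : ℕ → ℕ → Prop} {j : ℕ} :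
    cnt b X j = 0 ↔ ∀ k, 1 ≤ k → k ≤ b → ¬ X j k := by
  classical
  unfold cnt
  rw [card_eq_zero, filter_eq_empty_iff]
  simp only [mem_Icc]
  exact ⟨fun h k a c => h ⟨a, c⟩, fun h k a => h k a.1 a.2⟩

theorem Phi_zero (b s : ℕ) (x : ℕ → ℕ → Prop) :
    Phi b s x 0 ↔ ∃ k, s < k ∧ k ≤ b ∧ x k 0 := by
  unfold Phi
  rw [Sq_zero, Ne, cnt_eq_zero]
  constructor
  · intro h
    by_contra hc
    apply h
    intro k h1 h2 hk
    unfold mat at hk
    split_ifs at hk with hs
    · exact hc ⟨k, hs, h2, hk⟩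
    · omega
  · rintro ⟨k, h1, h2, hk⟩ h
    apply h k (by omega) h2
    unfold mat
    rw [if_pos h1]
    exact hk

theorem Sq_shift {c c' : ℕ → ℕ} (h : ∀ j, Z c j = Z c' j + 1) : shift (Sq c) = Sq c' := by
  funext n
  apply propext
  unfold shift Sq
  constructor
  · intro a j e
    exact a j (by rw [h, e])
  · intro a j e
    exact a j (by rw [h] at e; omega)

theorem mat_step {s : ℕ} {x y : ℕ → ℕ → Prop} (h1 : y (s + 1) = shift (x (s + 1)))
    (h2 : ∀ k, k ≠ s + 1 → y k = x k) (j k : ℕ) (hjk : 1 ≤ j ∨ k ≠ s + 1) :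
    mat s x j k ↔ mat (s + 1) y j k := by
  unfold mat
  by_cases hk : k = s + 1
  · subst hk
    have hj : 1 ≤ j := by omega
    rw [if_pos (by omega), if_neg (by omega), h1]
    unfold shift
    rw [Nat.sub_add_cancel hj]
    simp [hj]
  · rw [h2 k hk]
    by_cases hs : s < k
    · rw [if_pos hs, if_pos (by omega)]
    · rw [if_neg hs, if_neg (by omega)]

theorem Phi_ret {b s : ℕ} {x y : ℕ → ℕ → Prop} (h0 : ¬ x (s + 1) 0)
    (h1 : y (s + 1) = shift (x (s + 1))) (h2 : ∀ k, k ≠ s + 1 → y k = x k) :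
    Phi b s x = Phi b (s + 1) y := by
  unfold Phi
  congr 1
  funext j
  apply cnt_congr
  intro k _ _
  by_cases hjk : 1 ≤ j ∨ k ≠ s + 1
  · exact mat_step h1 h2 j k hjk
  · have hj : j = 0 := by omega
    have hk : k = s + 1 := by omega
    subst hj hk
    unfold mat
    simp [h0]

theorem Phi_esc {b s : ℕ} {x y : ℕ → ℕ → Prop} (hs : s + 1 ≤ b) (h0 : x (s + 1) 0)
    (h1 : y (s + 1) = shift (x (s + 1))) (h2 : ∀ k, k ≠ s + 1 → y k = x k) :
    shift (Phi b s x) = Phi b (s + 1) y := by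
  classical
  unfold Phi
  apply Sq_shift
  have e0 : cnt b (mat s x) 0 = cnt b (mat (s + 1) y) 0 + 1 := by
    unfold cnt
    have : ((Icc 1 b).filter fun k => mat s x 0 k) =
        insert (s + 1) ((Icc 1 b).filter fun k => mat (s + 1) y 0 k) := by
      ext k
      simp only [mem_filter, mem_insert, mem_Icc]
      by_cases hk : k = s + 1
      · subst hk
        simp only [true_or, iff_true]
        refine ⟨⟨by omega, hs⟩, ?_⟩
        unfold mat
        rw [if_pos (by omega)]
        exact h0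
      · rw [mat_step h1 h2 0 k (Or.inr hk)]
        simp [hk]
    rw [this, card_insert_of_notMem]
    simp [mat]
  intro j
  induction j with
  | zero => rw [Z_zero, Z_zero, e0]
  | succ j ih =>
    rw [Z_succ, Z_succ, ih, cnt_congr fun k _ _ => mat_step h1 h2 (j + 1) k (Or.inl (by omega))]
    omega

theorem Sq_cons {c c' : ℕ → ℕ} (h0 : c 0 = 0) (h : ∀ j, c (j + 1) = c' j) :
    shift (Sq c) = Sq c' := by
  have hz : ∀ j, Z c (j + 1) = Z c' j + 1 := by
    intro j
    induction j with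
    | zero => rw [Z_succ, Z_zero, Z_zero, h0, h]; omega
    | succ j ih => rw [Z_succ, ih, Z_succ c', h]; omega
  funext n
  apply propext
  unfold shift Sq
  constructor
  · intro a j e
    exact a (j + 1) (by rw [hz, e])
  · intro a j e
    cases j with
    | zero => rw [Z_zero, h0] at e; omega
    | succ j => exact a j (by rw [hz] at e; omega)

theorem Phi_wrap (b : ℕ) (x : ℕ → ℕ → Prop) : shift (Phi b b x) = Phi b 0 x := by
  unfold Phi
  apply Sq_cons
  · rw [cnt_eq_zero]
    intro k _ h2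
    unfold mat
    rw [if_neg (by omega)]
    omega
  · intro j
    apply cnt_congr
    intro k h1 h2
    unfold mat
    rw [if_neg (by omega), if_pos (by omega)]
    simp

theorem Phi_congr {b s n : ℕ} {x y : ℕ → ℕ → Prop}
    (h : ∀ k, 1 ≤ k → k ≤ b → ∀ i, i ≤ n → (x k i ↔ y k i)) : Phi b s x n ↔ Phi b s y n := by
  have hc : ∀ j, j ≤ n → cnt b (mat s x) j = cnt b (mat s y) j := by
    intro j hj
    apply cnt_congr
    intro k h1 h2
    unfold mat
    rw [h k h1 h2 j hj, h k h1 h2 (j - 1) (by omega)]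
  have hz : ∀ j, j ≤ n → Z (cnt b (mat s x)) j = Z (cnt b (mat s y)) j := by
    intro j hj
    unfold Z
    congr 1
    exact sum_congr rfl fun i hi => hc i (by have := mem_range.1 hi; omega)
  unfold Phi Sq
  constructor
  · intro a j e
    exact a j (by rw [hz j (by have := le_Z (cnt b (mat s y)) j; omega)]; exact e)
  · intro a j e
    exact a j (by rw [← hz j (by have := le_Z (cnt b (mat s x)) j; omega)]; exact e)

theorem Phi_congr' {b s : ℕ} {x y : ℕ → ℕ → Prop}
    (h : ∀ k, 1 ≤ k → k ≤ b → x k = y k) : Phi b s x = Phi b s y := by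
  funext n
  exact propext (Phi_congr fun k h1 h2 i _ => by rw [h k h1 h2])

open Classical in
theorem eq_Sq {f : ℕ → Prop} (hf : (Set.ofPred fun n => ¬ f n).Infinite) (c : ℕ → ℕ)
    (hc : ∀ j, ∃ S : Finset ℕ, S.card = c j ∧
      ∀ n, n ∈ S ↔ f n ∧ Nat.count (fun m => ¬ f m) n = j) : f = Sq c := by
  choose S hS1 hS2 using hc
  have key : ∀ j, Z c j = Nat.nth (fun m => ¬ f m) j := by
    intro j
    have h1 : ∑ i ∈ range (j + 1), c i =
        ((range (Nat.nth (fun m => ¬ f m) j)).filter f).card := by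
      rw [card_eq_sum_card_fiberwise (f := fun n => Nat.count (fun m => ¬ f m) n)
        (t := range (j + 1))]
      · refine sum_congr rfl fun i hi => ?_
        rw [← hS1]
        congr 1
        ext n
        simp only [hS2, mem_filter, mem_range]
        constructor
        · rintro ⟨a, e⟩
          refine ⟨⟨?_, a⟩, e⟩
          have h2 : n ≤ Nat.nth (fun m => ¬ f m) j :=
            (Nat.count_le_iff_le_nth hf).1 (by have := mem_range.1 hi; omega)
          refine lt_of_le_of_ne h2 ?_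
          rintro rfl
          exact Nat.nth_mem_of_infinite hf j a
        · rintro ⟨⟨-, a⟩, e⟩
          exact ⟨a, e⟩
      · intro n hn
        simp only [coe_filter, mem_range, Set.mem_ofPred_eq, coe_range, Set.mem_Iio] at hn ⊢
        have := (Nat.count_le_iff_le_nth hf).2 hn.1.le
        omega
    have h2 := Nat.count_nth_of_infinite hf j
    rw [Nat.count_eq_card_filter_range] at h2
    have h3 := card_filter_add_card_filter_not (s := range (Nat.nth (fun m => ¬ f m) j)) f
    rw [card_range] at h3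
    unfold Z
    omega
  funext n
  apply propext
  unfold Sq
  simp only [key]
  constructor
  · rintro a j rfl
    exact Nat.nth_mem_of_infinite hf j a
  · intro a
    by_contra hn
    exact a _ (Nat.nth_count (p := fun m => ¬ f m) hn).symm

theorem exists_round (c : ℕ → ℕ) (i : ℕ) (h : Sq c i) :
    ∃ j, Z c j ≤ i + c j ∧ i < Z c j := by
  classical
  have hex : ∃ j, i < Z c j := ⟨i + 1, le_Z c (i + 1)⟩
  refine ⟨Nat.find hex, ?_, Nat.find_spec hex⟩
  rcases Nat.eq_zero_or_pos (Nat.find hex) with h0 | h0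
  · rw [h0, Z_zero]; omega
  · obtain ⟨j, hj⟩ : ∃ j, Nat.find hex = j + 1 := ⟨Nat.find hex - 1, by omega⟩
    have h1 := Nat.find_min hex (m := j) (by omega)
    have h2 := h j
    rw [hj, Z_succ]
    omega

theorem exists_pos (b : ℕ) (X : ℕ → ℕ → Prop) :
    ∃ pos : ℕ → ℕ → ℕ,
      (∀ j k, 1 ≤ k → k ≤ b → X j k →
        Z (cnt b X) j ≤ pos j k + cnt b X j ∧ pos j k < Z (cnt b X) j) ∧
      (∀ j k k', 1 ≤ k → k ≤ b → X j k → 1 ≤ k' → k' ≤ b → X j k' → pos j k = pos j k' → k = k') ∧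
      (∀ i, Sq (cnt b X) i → ∃ j k, 1 ≤ k ∧ k ≤ b ∧ X j k ∧ pos j k = i) := by
  classical
  have hcz : ∀ j, cnt b X j ≤ Z (cnt b X) j := by
    intro j
    cases j with
    | zero => rw [Z_zero]
    | succ j => rw [Z_succ]; omega
  let S : ℕ → Finset ℕ := fun j => (Icc 1 b).filter fun k => X j k
  have hS : ∀ j, (S j).card = cnt b X j := fun j => by
    simp only [S, cnt]
  have hm : ∀ j k, k ∈ S j ↔ (1 ≤ k ∧ k ≤ b) ∧ X j k := fun j k => by
    simp only [S, mem_filter, mem_Icc]
  refine ⟨fun j k => if h : k ∈ S j then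
    Z (cnt b X) j - cnt b X j + ((S j).equivFin ⟨k, h⟩).val else 0, ?_, ?_, ?_⟩
  · intro j k h1 h2 h3
    have hk : k ∈ S j := (hm j k).2 ⟨⟨h1, h2⟩, h3⟩
    simp only [dif_pos hk]
    have := ((S j).equivFin ⟨k, hk⟩).isLt
    have := hS j
    have := hcz j
    omega
  · intro j k k' h1 h2 h3 h1' h2' h3' e
    have hk : k ∈ S j := (hm j k).2 ⟨⟨h1, h2⟩, h3⟩
    have hk' : k' ∈ S j := (hm j k').2 ⟨⟨h1', h2'⟩, h3'⟩
    simp only [dif_pos hk, dif_pos hk'] at e
    have : (S j).equivFin ⟨k, hk⟩ = (S j).equivFin ⟨k', hk'⟩ := Fin.ext (by omega)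
    exact congrArg Subtype.val ((S j).equivFin.injective this)
  · intro i hi
    obtain ⟨j, a1, a2⟩ := exists_round _ i hi
    have := hS j
    have := hcz j
    obtain ⟨⟨k, hk⟩, e⟩ := (S j).equivFin.surjective
      ⟨i - (Z (cnt b X) j - cnt b X j), by omega⟩
    obtain ⟨⟨h1, h2⟩, h3⟩ := (hm j k).1 hk
    refine ⟨j, k, h1, h2, h3, ?_⟩
    simp only [dif_pos hk, e]
    omega

theorem matrix_lemma (b : ℕ) (X : ℕ → ℕ → Prop) (f : ℕ → Prop) (h : Le f (Sq (cnt b X))) :
    ∃ (Y : ℕ → ℕ → Prop) (ψ : ℕ → ℕ → ℕ), (∀ k, StrictMono (ψ k)) ∧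
      (∀ j' k, Y j' k → ∃ j, ψ k j = j' ∧ X j k) ∧ f = Sq (cnt b Y) ∧
      (¬ f 0 → Sq (cnt b X) 0 → ∀ k, 1 ≤ ψ k 0) := by
  classical
  obtain ⟨φ, hφ, hf⟩ := h
  obtain ⟨pos, p1, p2, p3⟩ := exists_pos b X
  set c := cnt b X with hc
  have hz : ∀ j, ¬ f (φ (Z c j)) := by
    intro j a
    obtain ⟨i, e, hi⟩ := hf _ a
    exact hi j (hφ.injective e)
  have hinf : (Set.ofPred fun n => ¬ f n).Infinite :=
    Set.infinite_of_injective_forall_mem (f := fun j => φ (Z c j))
      (hφ.injective.comp (Z_strictMono c).injective) hz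
  let ρ : ℕ → ℕ := fun n => Nat.count (fun m => ¬ f m) n
  let A : ℕ → ℕ → Prop := fun j k => 1 ≤ k ∧ k ≤ b ∧ X j k ∧ f (φ (pos j k))
  let ψ : ℕ → ℕ → ℕ := fun k j => if A j k then ρ (φ (pos j k)) else ρ (φ (Z c j))
  have hρ : Monotone ρ := Nat.count_monotone _
  have ψle : ∀ k j, ψ k j ≤ ρ (φ (Z c j)) := by
    intro k j
    simp only [ψ]
    split_ifs with a
    · exact hρ (hφ.monotone (p1 j k a.1 a.2.1 a.2.2.1).2.le)
    · exact le_rfl
  have ψgt : ∀ k j, ρ (φ (Z c j)) < ψ k (j + 1) := by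
    intro k j
    simp only [ψ]
    split_ifs with a
    · refine Nat.count_strict_mono (hz j) (hφ ?_)
      have := (p1 (j + 1) k a.1 a.2.1 a.2.2.1).1
      rw [Z_succ] at this
      omega
    · exact Nat.count_strict_mono (hz j) (hφ (Z_strictMono c (by omega)))
  have ψmono : ∀ k, StrictMono (ψ k) := fun k =>
    strictMono_nat_of_lt_succ fun j => (ψle k j).trans_lt (ψgt k j)
  let Y : ℕ → ℕ → Prop := fun j' k => ∃ j, ψ k j = j' ∧ A j k
  refine ⟨Y, ψ, ψmono, fun j' k ⟨j, e, a⟩ => ⟨j, e, a.2.2.1⟩, ?_, ?_⟩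
  · apply eq_Sq hinf
    intro j'
    let g : ℕ → ℕ := fun k => if h : Y j' k then φ (pos h.choose k) else 0
    refine ⟨((Icc 1 b).filter fun k => Y j' k).image g, ?_, ?_⟩
    · rw [card_image_of_injOn]
      · rfl
      · intro k hk k' hk' e
        simp only [coe_filter, Set.mem_ofPred_eq] at hk hk'
        simp only [g, dif_pos hk.2, dif_pos hk'.2] at e
        obtain ⟨-, a⟩ := hk.2.choose_spec
        obtain ⟨-, a'⟩ := hk'.2.choose_spec
        have e' := hφ.injective e
        generalize hk.2.choose = j1 at *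
        generalize hk'.2.choose = j2 at *
        have q1 := p1 j1 k a.1 a.2.1 a.2.2.1
        have q2 := p1 j2 k' a'.1 a'.2.1 a'.2.2.1
        have hj : j1 = j2 := by
          by_contra hne
          rcases Nat.lt_or_gt_of_ne hne with hlt | hlt
          · obtain ⟨j3, rfl⟩ : ∃ j3, j2 = j3 + 1 := ⟨j2 - 1, by omega⟩
            have := (Z_strictMono c).monotone (show j1 ≤ j3 by omega)
            rw [Z_succ] at q2
            omega
          · obtain ⟨j3, rfl⟩ : ∃ j3, j1 = j3 + 1 := ⟨j1 - 1, by omega⟩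
            have := (Z_strictMono c).monotone (show j2 ≤ j3 by omega)
            rw [Z_succ] at q1
            omega
        subst hj
        exact p2 j1 k k' a.1 a.2.1 a.2.2.1 a'.1 a'.2.1 a'.2.2.1 e'
    · intro n
      simp only [mem_image, mem_filter, mem_Icc]
      constructor
      · rintro ⟨k, ⟨-, hk⟩, rfl⟩
        simp only [g, dif_pos hk]
        obtain ⟨e, a⟩ := hk.choose_spec
        refine ⟨a.2.2.2, ?_⟩
        simp only [ψ, if_pos a] at e
        exact e
      · rintro ⟨a, e⟩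
        obtain ⟨i, rfl, hi⟩ := hf n a
        obtain ⟨j, k, h1, h2, h3, rfl⟩ := p3 i hi
        have hA : A j k := ⟨h1, h2, h3, a⟩
        have hψ : ψ k j = j' := by simp only [ψ, if_pos hA]; exact e
        have hY : Y j' k := ⟨j, hψ, hA⟩
        refine ⟨k, ⟨⟨h1, h2⟩, hY⟩, ?_⟩
        simp only [g, dif_pos hY]
        have : hY.choose = j := (ψmono k).injective (hY.choose_spec.1.trans hψ.symm)
        rw [this]
  · intro h0 h1 k
    have hρ1 : ∀ n, 1 ≤ n → 1 ≤ ρ n := fun n hn =>
      Nat.count_strict_mono (p := fun m => ¬ f m) (m := 0) h0 hn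
    simp only [ψ]
    split_ifs with a
    · apply hρ1
      by_contra hc0
      have : φ (pos 0 k) = 0 := by omega
      exact h0 (this ▸ a.2.2.2)
    · apply hρ1
      have := hφ.id_le (Z c 0)
      have := h1 0
      simp only [id] at *
      omega

theorem inherit (b s : ℕ) (x : ℕ → ℕ → Prop) (f : ℕ → Prop) (h : Le f (Phi b s x))
    (s' : ℕ) (hs' : s' = s ∨ (s' = b ∧ ¬ f 0 ∧ Phi b s x 0)) :
    ∃ y : ℕ → ℕ → Prop, (∀ k, Le (y k) (x k)) ∧ f = Phi b s' y := by
  obtain ⟨Y, ψ, m1, m2, m3, m4⟩ := matrix_lemma b (mat s x) f h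
  have low : ∀ k, ¬ s < k → Le (fun i => Y (i + 1) k) (x k) ∧ ¬ Y 0 k := by
    intro k hk
    refine ⟨⟨fun i => ψ k (i + 1) - 1, ?_, ?_⟩, ?_⟩
    · refine strictMono_nat_of_lt_succ fun i => ?_
      have := m1 k (show i + 1 < i + 1 + 1 by omega)
      have := (m1 k).id_le (i + 1)
      simp only [id] at this
      omega
    · intro n hn
      obtain ⟨j, e, a⟩ := m2 _ _ hn
      unfold mat at a
      rw [if_neg hk] at a
      refine ⟨j - 1, ?_, a.2⟩
      simp only [Nat.sub_add_cancel a.1, e]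
      omega
    · intro hn
      obtain ⟨j, e, a⟩ := m2 _ _ hn
      unfold mat at a
      rw [if_neg hk] at a
      have := (m1 k).id_le j
      simp only [id] at this
      omega
  rcases hs' with rfl | ⟨rfl, h0, h1⟩
  · refine ⟨fun k i => if s' < k then Y i k else Y (i + 1) k, ?_, ?_⟩
    · intro k
      by_cases hk : s' < k
      · simp only [if_pos hk]
        refine ⟨ψ k, m1 k, fun n hn => ?_⟩
        obtain ⟨j, e, a⟩ := m2 _ _ hn
        unfold mat at a
        rw [if_pos hk] at a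
        exact ⟨j, e, a⟩
      · simp only [if_neg hk]
        exact (low k hk).1
    · rw [m3]
      unfold Phi
      congr 1
      funext j
      apply cnt_congr
      intro k _ _
      unfold mat
      by_cases hk : s' < k
      · simp only [if_pos hk]
      · simp only [if_neg hk]
        cases j with
        | zero => simp [(low k hk).2]
        | succ j => simp
  · have m5 := m4 h0 h1
    refine ⟨fun k i => Y (i + 1) k, ?_, ?_⟩
    · intro k
      by_cases hk : s < k
      · refine ⟨fun i => ψ k i - 1, ?_, fun n hn => ?_⟩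
        · refine strictMono_nat_of_lt_succ fun i => ?_
          have := m1 k (show i < i + 1 by omega)
          have := (m1 k).monotone (Nat.zero_le i)
          have := m5 k
          omega
        · obtain ⟨j, e, a⟩ := m2 _ _ hn
          unfold mat at a
          rw [if_pos hk] at a
          exact ⟨j, by simp only [e]; omega, a⟩
      · exact (low k hk).1
    · rw [m3]
      unfold Phi
      congr 1
      funext j
      apply cnt_congr
      intro k _ h2
      unfold mat
      rw [if_neg (by omega)]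
      cases j with
      | zero =>
        simp only [nonpos_iff_eq_zero, one_ne_zero, false_and, iff_false]
        intro hn
        obtain ⟨j, e, -⟩ := m2 _ _ hn
        have := (m1 k).monotone (Nat.zero_le j)
        have := m5 k
        omega
      | succ j => simp

end Pool.Agent.Lib.MP_4b601f_co
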