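import Pool.Agent.Lib.MP_4b601f_co.Defs
import Pool.Agent.Lib.MP_4b601f_co.Seq

namespace Pool.Agent.Lib.MP_4b601f_co

inductive Fn (b R : List ℕ → ℕ) : List ℕ → Prop
  | mk (v : List ℕ) : (∀ k, R v < k → k ≤ b v → Fn b R (k :: v)) → Fn b R v

def Valid (b R : List ℕ → ℕ) : Prop := ∀ v, R v ≤ b v

def SolAt (b R : List ℕ → ℕ) (F : List ℕ → ℕ → Prop) (w : List ℕ) : Prop :=
  F w = Phi (b w) (R w) (fun k => F (k :: w))

def GoodOn (b : List ℕ → ℕ) (v : List ℕ) (R : List ℕ → ℕ) (F : List ℕ → ℕ → Prop) : Prop :=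
  ∀ w, v <:+ w → SolAt b R F w ∧ (¬ Fn b R w → F w 0)

def Run (b : List ℕ → ℕ) (v : List ℕ) (t : ℕ) (σ σ' : Option (List ℕ) × (List ℕ → ℕ)) : Prop :=
  (step b)^[t] σ = σ' ∧ ∀ t' < t, ∃ w, v <:+ w ∧ ((step b)^[t'] σ).1 = some w

variable {b : List ℕ → ℕ}

theorem suffix_of_cons {k : ℕ} {v w : List ℕ} (h : (k :: v) <:+ w) : v <:+ w :=
  (List.suffix_cons k v).trans h

theorem cons_unique {k k' : ℕ} {v w : List ℕ} (h : (k :: v) <:+ w) (h' : (k' :: v) <:+ w) :
    k = k' := by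
  have := (List.suffix_of_suffix_length_le h h' (by simp)).eq_of_length (by simp)
  exact (List.cons.inj this).1

theorem not_cons_suffix (k : ℕ) (v : List ℕ) : ¬ (k :: v) <:+ v := fun h => by
  have := h.length_le
  simp at this

theorem suffix_cases {v w : List ℕ} (h : v <:+ w) : w = v ∨ ∃ k, (k :: v) <:+ w := by
  obtain ⟨t, rfl⟩ := h
  rcases List.eq_nil_or_concat t with rfl | ⟨t', k, rfl⟩
  · exact Or.inl rfl
  · exact Or.inr ⟨k, t', by simp⟩

theorem Fn.congr {R R' : List ℕ → ℕ} {v : List ℕ} (h : Fn b R v)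
    (e : ∀ w, v <:+ w → R' w = R w) : Fn b R' v := by
  induction h with
  | mk v _ ih =>
    refine Fn.mk v fun k h1 h2 => ih k ?_ h2 fun w hw => e w (suffix_of_cons hw)
    rwa [e v List.suffix_rfl] at h1

theorem Fn.mono {R R' : List ℕ → ℕ} {v : List ℕ} (h : Fn b R v) (e : ∀ w, R w ≤ R' w) :
    Fn b R' v := by
  induction h with
  | mk v _ ih => exact Fn.mk v fun k h1 h2 => ih k ((e v).trans_lt h1) h2

theorem not_Fn {R : List ℕ → ℕ} {v : List ℕ} (h : ¬ Fn b R v) :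
    ∃ k, R v < k ∧ k ≤ b v ∧ ¬ Fn b R (k :: v) := by
  by_contra hc
  refine h (Fn.mk v fun k h1 h2 => ?_)
  by_contra h3
  exact hc ⟨k, h1, h2, h3⟩

theorem GoodOn.congr {v : List ℕ} {R R' : List ℕ → ℕ} {F F' : List ℕ → ℕ → Prop}
    (h : GoodOn b v R F) (e : ∀ w, v <:+ w → R' w = R w ∧ F' w = F w) : GoodOn b v R' F' := by
  intro w hw
  obtain ⟨h1, h2⟩ := h w hw
  refine ⟨?_, fun hn => ?_⟩
  · unfold SolAt at h1 ⊢
    rw [(e w hw).1, (e w hw).2, h1]
    exact Phi_congr' fun k _ _ => (e _ (hw.trans (List.suffix_cons k w))).2.symm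
  · rw [(e w hw).2]
    exact h2 fun c => hn (c.congr fun u hu => (e u (hw.trans hu)).1)

theorem GoodOn.child {v : List ℕ} {R : List ℕ → ℕ} {F : List ℕ → ℕ → Prop}
    (h : GoodOn b v R F) (k : ℕ) : GoodOn b (k :: v) R F :=
  fun w hw => h w (suffix_of_cons hw)

theorem live_of_sol {v : List ℕ} {R : List ℕ → ℕ} {F : List ℕ → ℕ → Prop} (h : SolAt b R F v)
    (hc : ∀ k, R v < k → ¬ Fn b R (k :: v) → F (k :: v) 0) (hn : ¬ Fn b R v) : F v 0 := by
  obtain ⟨k, h1, h2, h3⟩ := not_Fn hn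
  rw [h, Phi_zero]
  exact ⟨k, h1, h2, hc k h1 h3⟩

theorem GoodOn.mk' {v : List ℕ} {R : List ℕ → ℕ} {F : List ℕ → ℕ → Prop} (h : SolAt b R F v)
    (hc : ∀ k, GoodOn b (k :: v) R F) : GoodOn b v R F := by
  intro w hw
  rcases suffix_cases hw with rfl | ⟨k, hk⟩
  · exact ⟨h, live_of_sol h fun k _ => (hc k _ List.suffix_rfl).2⟩
  · exact hc k w hk

theorem Run.trans {v : List ℕ} {t1 t2 : ℕ} {σ1 σ2 σ3 : Option (List ℕ) × (List ℕ → ℕ)}
    (h1 : Run b v t1 σ1 σ2) (h2 : Run b v t2 σ2 σ3) : Run b v (t2 + t1) σ1 σ3 := by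
  refine ⟨by rw [Function.iterate_add_apply, h1.1, h2.1], fun t' ht => ?_⟩
  rcases Nat.lt_or_ge t' t1 with h | h
  · exact h1.2 t' h
  · obtain ⟨u, rfl⟩ : ∃ u, t' = u + t1 := ⟨t' - t1, by omega⟩
    rw [Function.iterate_add_apply, h1.1]
    exact h2.2 u (by omega)

theorem Run.mono {v : List ℕ} {k t : ℕ} {σ1 σ2 : Option (List ℕ) × (List ℕ → ℕ)}
    (h : Run b (k :: v) t σ1 σ2) : Run b v t σ1 σ2 :=
  ⟨h.1, fun t' ht => let ⟨w, a, c⟩ := h.2 t' ht; ⟨w, suffix_of_cons a, c⟩⟩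

theorem step_rot (σ : Option (List ℕ) × (List ℕ → ℕ)) (w : List ℕ) (h : σ.1 ≠ some w) :
    (step b σ).2 w = σ.2 w := by
  obtain ⟨p, R⟩ := σ
  cases p with
  | none => rfl
  | some v =>
    have : w ≠ v := fun c => h (by rw [c])
    simp [step, Function.update_of_ne this]

theorem Run.outside {v : List ℕ} {t : ℕ} {σ1 σ2 : Option (List ℕ) × (List ℕ → ℕ)}
    (h : Run b v t σ1 σ2) (w : List ℕ) (hw : ¬ v <:+ w) :
    ∀ t' ≤ t, ((step b)^[t'] σ1).2 w = σ1.2 w := by
  intro t' ht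
  induction t' with
  | zero => rfl
  | succ t' ih =>
    rw [Function.iterate_succ_apply', step_rot, ih (by omega)]
    obtain ⟨u, a, c⟩ := h.2 t' (by omega)
    rw [c]
    intro e
    exact hw ((Option.some.inj e) ▸ a)

theorem Run.outside' {v : List ℕ} {t : ℕ} {p1 p2 : Option (List ℕ)} {R1 R2 : List ℕ → ℕ}
    (h : Run b v t (p1, R1) (p2, R2)) (w : List ℕ) (hw : ¬ v <:+ w) : R2 w = R1 w := by
  have := h.outside w hw t le_rfl
  rwa [h.1] at this

theorem run_down {v : List ℕ} {R : List ℕ → ℕ} (h : R v < b v) :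
    Run b v 1 (some v, R) (some ((R v + 1) :: v), Function.update R v (R v + 1)) := by
  refine ⟨?_, fun t' ht => ⟨v, List.suffix_rfl, ?_⟩⟩
  · have : (R v + 1) % (b v + 1) = R v + 1 := Nat.mod_eq_of_lt (by omega)
    simp [step, this]
  · have : t' = 0 := by omega
    subst this
    rfl

theorem run_up {v : List ℕ} {R : List ℕ → ℕ} (h : R v = b v) :
    Run b v 1 (some v, R) (parent v, Function.update R v 0) := by
  refine ⟨?_, fun t' ht => ⟨v, List.suffix_rfl, ?_⟩⟩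
  · simp [step, h]
  · have : t' = 0 := by omega
    subst this
    rfl

theorem Valid.update {R : List ℕ → ℕ} (h : Valid b R) {v : List ℕ} {k : ℕ} (hk : k ≤ b v) :
    Valid b (Function.update R v k) := by
  intro w
  by_cases e : w = v
  · subst e; simpa using hk
  · rw [Function.update_of_ne e]; exact h w

theorem ne_of_cons_suffix {k : ℕ} {v w : List ℕ} (h : (k :: v) <:+ w) : w ≠ v := by
  rintro rfl
  exact not_cons_suffix k w h

def RetP (b : List ℕ → ℕ) (v : List ℕ) (R0 : List ℕ → ℕ) : Prop :=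
  ∀ (R : List ℕ → ℕ) (F : List ℕ → ℕ → Prop), Valid b R → (∀ w, v <:+ w → R w = R0 w) →
    GoodOn b v R F → ∃ (t : ℕ) (R' : List ℕ → ℕ) (F' : List ℕ → ℕ → Prop),
      Run b v t (some v, R) (parent v, R') ∧ Valid b R' ∧ (∀ w, ¬ v <:+ w → F' w = F w) ∧
      GoodOn b v R' F' ∧ F' v = shift (F v) ∧ ¬ F v 0

theorem loop (v : List ℕ) (R0 : List ℕ → ℕ) (n : ℕ) :
    ∀ (R : List ℕ → ℕ) (F : List ℕ → ℕ → Prop), R v + n ≤ b v → Valid b R → GoodOn b v R F →
      (∀ k, R v < k → k ≤ R v + n → RetP b (k :: v) R0 ∧ ∀ w, (k :: v) <:+ w → R w = R0 w) →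
      ∃ (t : ℕ) (R' : List ℕ → ℕ) (F' : List ℕ → ℕ → Prop),
        Run b v t (some v, R) (some v, R') ∧ Valid b R' ∧ R' v = R v + n ∧
        (∀ w, ¬ v <:+ w → F' w = F w) ∧ F' v = F v ∧ GoodOn b v R' F' ∧
        (∀ k, R v + n < k → ∀ w, (k :: v) <:+ w → R' w = R w) := by
  induction n with
  | zero =>
    intro R F _ hV hG _
    exact ⟨0, R, F, ⟨rfl, fun _ h => absurd h (Nat.not_lt_zero _)⟩, hV, rfl, fun _ _ => rfl, rfl,
      hG, fun _ _ _ _ => rfl⟩
  | succ n ih =>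
    intro R F hb hV hG hk
    obtain ⟨hret, hag⟩ := hk (R v + 1) (by omega) (by omega)
    have r1 := run_down (b := b) (v := v) (R := R) (by omega)
    obtain ⟨t2, R2, F2, r2, v2, o2, g2, s2, z2⟩ := hret (Function.update R v (R v + 1)) F
      (hV.update (by omega))
      (fun w hw => by rw [Function.update_of_ne (ne_of_cons_suffix hw)]; exact hag w hw)
      ((hG.child _).congr fun w hw => ⟨Function.update_of_ne (ne_of_cons_suffix hw) _ _, rfl⟩)
    have e1 : R2 v = R v + 1 := by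
      rw [r2.outside' v (not_cons_suffix _ _)]; simp
    have e2 : ∀ k, k ≠ R v + 1 → ∀ w, (k :: v) <:+ w → R2 w = R w ∧ F2 w = F w := by
      intro k hne w hw
      have hn : ¬ ((R v + 1) :: v) <:+ w := fun c => hne (cons_unique hw c)
      exact ⟨by rw [r2.outside' w hn, Function.update_of_ne (ne_of_cons_suffix hw)], o2 w hn⟩
    have e3 : F2 v = F v := o2 v (not_cons_suffix _ _)
    have g3 : GoodOn b v R2 F2 := by
      refine GoodOn.mk' ?_ fun k => ?_
      · unfold SolAt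
        rw [e3, e1, (hG v List.suffix_rfl).1]
        exact Phi_ret z2 s2 fun k hne => (e2 k hne _ List.suffix_rfl).2
      · by_cases hne : k = R v + 1
        · rw [hne]; exact g2
        · exact (hG.child k).congr (e2 k hne)
    obtain ⟨t3, R3, F3, r3, v3, a3, o3, f3, g4, c3⟩ := ih R2 F2 (by omega) v2 g3 (by
      intro k h1 h2
      obtain ⟨q1, q2⟩ := hk k (by omega) (by omega)
      exact ⟨q1, fun w hw => ((e2 k (by omega) w hw).1).trans (q2 w hw)⟩)
    refine ⟨_, R3, F3, (r1.trans r2.mono).trans r3, v3, by omega, fun w hw => ?_, f3.trans e3, g4,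
      fun k h1 w hw => ?_⟩
    · rw [o3 w hw, o2 w fun c => hw (suffix_of_cons c)]
    · rw [c3 k (by omega) w hw, (e2 k (by omega) w hw).1]

theorem retP_of_Fn {R0 : List ℕ → ℕ} {v : List ℕ} (h : Fn b R0 v) : RetP b v R0 := by
  induction h with
  | mk v _ ih =>
    intro R F hV hag hG
    have hv := hag v List.suffix_rfl
    have hb := hV v
    obtain ⟨t, R1, F1, r1, v1, a1, o1, f1, g1, -⟩ := loop v R0 (b v - R v) R F (by omega) hV hG
      fun k h1 h2 => ⟨ih k (by omega) (by omega), fun w hw => hag w (suffix_of_cons hw)⟩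
    have a2 : R1 v = b v := by omega
    have s1 := (g1 v List.suffix_rfl).1
    unfold SolAt at s1
    rw [f1, a2] at s1
    refine ⟨_, Function.update R1 v 0, Function.update F1 v (shift (F v)), r1.trans (run_up a2),
      v1.update (Nat.zero_le _), fun w hw => ?_, ?_, by simp, ?_⟩
    · have : w ≠ v := fun c => hw (c ▸ List.suffix_rfl)
      rw [Function.update_of_ne this, o1 w hw]
    · refine GoodOn.mk' ?_ fun k => (g1.child k).congr fun w hw =>
        ⟨Function.update_of_ne (ne_of_cons_suffix hw) _ _,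
          Function.update_of_ne (ne_of_cons_suffix hw) _ _⟩
      unfold SolAt
      rw [Function.update_self, Function.update_self, s1, Phi_wrap]
      exact Phi_congr' fun k _ _ =>
        (Function.update_of_ne (ne_of_cons_suffix List.suffix_rfl) _ _).symm
    · rw [s1, Phi_zero]
      rintro ⟨k, h1, h2, -⟩
      omega

theorem esc_step {v : List ℕ} {R : List ℕ → ℕ} {F : List ℕ → ℕ → Prop} (hn : ¬ Fn b R v)
    (hV : Valid b R) (hG : GoodOn b v R F) :
    ∃ (k t : ℕ) (R' : List ℕ → ℕ) (F' : List ℕ → ℕ → Prop), 1 ≤ t ∧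
      Run b v t (some v, R) (some (k :: v), R') ∧ Valid b R' ∧ R' v = k ∧ ¬ Fn b R' (k :: v) ∧
      (∀ k', GoodOn b (k' :: v) R' F') ∧ (∀ w, ¬ v <:+ w → F' w = F w) ∧ F' v = F v ∧
      shift (F v) = Phi (b v) k fun k' => if k' = k then shift (F' (k :: v)) else F' (k' :: v) := by
  classical
  have hex := not_Fn hn
  obtain ⟨k1, k2, k3⟩ := Nat.find_spec hex
  have hmin := fun m => Nat.find_min hex (m := m)
  generalize Nat.find hex = k at k1 k2 k3 hmin
  obtain ⟨t, R1, F1, r1, v1, a1, o1, f1, g1, c1⟩ := loop v R (k - 1 - R v) R F (by omega) hV hG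
    fun m h1 h2 => ⟨retP_of_Fn (by
      by_contra c
      exact hmin m (by omega) ⟨h1, by omega, c⟩), fun _ _ => rfl⟩
  have a2 : R1 v + 1 = k := by omega
  have r2 := run_down (b := b) (v := v) (R := R1) (by omega)
  rw [a2] at r2
  have k4 : ¬ Fn b R1 (k :: v) := fun c => k3 (c.congr fun w hw => (c1 k (by omega) w hw).symm)
  refine ⟨k, _, Function.update R1 v k, F1, by omega, r1.trans r2, v1.update k2, by simp, ?_,
    fun k' => (g1.child k').congr fun w hw =>
      ⟨Function.update_of_ne (ne_of_cons_suffix hw) _ _, rfl⟩, o1, f1, ?_⟩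
  · exact fun c => k4 (c.congr fun w hw =>
      (Function.update_of_ne (ne_of_cons_suffix hw) _ _).symm)
  · have s1 := (g1 v List.suffix_rfl).1
    unfold SolAt at s1
    rw [← f1, s1, ← a2]
    refine Phi_esc (by omega) ?_ (by simp) fun k' hne => by simp [hne]
    rw [a2]
    exact (g1 _ (List.suffix_cons k v)).2 k4

theorem exists_chain {S : Type} (P : S → Prop) (Q : S → S → Prop) (s0 : S) (h0 : P s0)
    (h : ∀ s, P s → ∃ s', P s' ∧ Q s s') :
    ∃ f : ℕ → S, f 0 = s0 ∧ ∀ n, P (f n) ∧ Q (f n) (f (n + 1)) := by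
  choose g hg1 hg2 using h
  let f : ℕ → {s // P s} := fun n => Nat.rec ⟨s0, h0⟩ (fun _ s => ⟨g s.1 s.2, hg1 s.1 s.2⟩) n
  exact ⟨fun n => (f n).1, rfl, fun n => ⟨(f n).2, hg2 _ (f n).2⟩⟩

theorem nextRotor_eq {R R' : List ℕ → ℕ}
    (h : ∀ w, ∃ T, ∀ t, T ≤ t → (walk b R t).2 w = R' w) : nextRotor b R = R' := by
  funext w
  obtain ⟨T, hT⟩ := h w
  apply Filter.Tendsto.limUnder_eq
  exact tendsto_atTop_of_eventually_const hT

theorem step_none (R : List ℕ → ℕ) (t : ℕ) : (step b)^[t] (none, R) = (none, R) :=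
  Function.iterate_fixed rfl t

theorem particle_ret {R : List ℕ → ℕ} {F : List ℕ → ℕ → Prop} (hF : Fn b R []) (hV : Valid b R)
    (hG : GoodOn b [] R F) :
    ¬ Escapes b R ∧ ¬ F [] 0 ∧ Valid b (nextRotor b R) ∧
      ∃ F', GoodOn b [] (nextRotor b R) F' ∧ F' [] = shift (F []) := by
  obtain ⟨t, R', F', r, v, -, g, s, z⟩ := retP_of_Fn hF R F hV (fun _ _ => rfl) hG
  have e : nextRotor b R = R' := by
    refine nextRotor_eq fun w => ⟨t, fun u hu => ?_⟩
    obtain ⟨d, rfl⟩ : ∃ d, u = d + t := ⟨u - t, by omega⟩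
    unfold walk
    rw [Function.iterate_add_apply, r.1]
    exact congrFun (congrArg Prod.snd (step_none R' d)) w
  rw [e]
  refine ⟨fun h => h t ?_, z, v, F', g, s⟩
  unfold walk
  rw [r.1]
  rfl

end Pool.Agent.Lib.MP_4b601f_co
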