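import Pool.Agent.Lib.MP_4b601f_co.Dyn

namespace Pool.Agent.Lib.MP_4b601f_co

variable {b : List ℕ → ℕ}

structure St where
  x : List ℕ
  R : List ℕ → ℕ
  F : List ℕ → ℕ → Prop
  T : ℕ

def StP (b R0 : List ℕ → ℕ) (s : St) : Prop :=
  walk b R0 s.T = (some s.x, s.R) ∧ Valid b s.R ∧ ¬ Fn b s.R s.x ∧ GoodOn b s.x s.R s.F

def StQ (b : List ℕ → ℕ) (s s' : St) : Prop :=
  ∃ k t, 1 ≤ t ∧ s'.x = k :: s.x ∧ s'.T = t + s.T ∧
    Run b s.x t (some s.x, s.R) (some s'.x, s'.R) ∧ s'.R s.x = k ∧
    (∀ k', GoodOn b (k' :: s.x) s'.R s'.F) ∧ (∀ w, ¬ s.x <:+ w → s'.F w = s.F w) ∧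
    s'.F s.x = s.F s.x ∧
    shift (s.F s.x) = Phi (b s.x) k
      fun k' => if k' = k then shift (s'.F (k :: s.x)) else s'.F (k' :: s.x)

theorem particle_esc {R : List ℕ → ℕ} {F : List ℕ → ℕ → Prop} (hF : ¬ Fn b R []) (hV : Valid b R)
    (hG : GoodOn b [] R F) :
    Escapes b R ∧ F [] 0 ∧ Valid b (nextRotor b R) ∧
      ∃ F', GoodOn b [] (nextRotor b R) F' ∧ F' [] = shift (F []) := by
  classical
  obtain ⟨s, s0, hs⟩ := exists_chain (StP b R) (StQ b) ⟨[], R, F, 0⟩ ⟨rfl, hV, hF, hG⟩ (by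
    rintro ⟨x, R1, F1, T⟩ ⟨p1, p2, p3, p4⟩
    obtain ⟨k, t, R2, F2, q1, q2, q3, q4, q5, q6, q7, q8, q9⟩ := esc_step p3 p2 p4
    refine ⟨⟨k :: x, R2, F2, t + T⟩, ⟨?_, q3, q5, q6 k⟩, k, t, q1, rfl, rfl, q2, q4, q6, q7, q8, q9⟩
    unfold walk at p1 ⊢
    simp only at p1 ⊢
    rw [Function.iterate_add_apply, p1, q2.1])
  have hP := fun n => (hs n).1
  choose k t t1 ex eT run eR gc oF eF eS using fun n => (hs n).2
  have len : ∀ d, (s d).x.length = d := by
    intro d
    induction d with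
    | zero => rw [s0]; rfl
    | succ d ih => rw [ex, List.length_cons, ih]
  have Tge : ∀ d, d ≤ (s d).T := by
    intro d
    induction d with
    | zero => exact Nat.zero_le _
    | succ d ih => rw [eT]; have := t1 d; omega
  have suf : ∀ d e, d ≤ e → (s d).x <:+ (s e).x := by
    intro d e h
    induction e, h using Nat.le_induction with
    | base => exact List.suffix_rfl
    | succ e _ ih => rw [ex]; exact ih.trans (List.suffix_cons _ _)
  have stab : ∀ d w, ¬ (s d).x <:+ w → ∀ e, d ≤ e → (s e).R w = (s d).R w ∧ (s e).F w = (s d).F w := by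
    intro d w hw e h
    induction e, h using Nat.le_induction with
    | base => exact ⟨rfl, rfl⟩
    | succ e he ih =>
      have hn : ¬ (s e).x <:+ w := fun c => hw ((suf d e he).trans c)
      exact ⟨((run e).outside' w hn).trans ih.1, (oF e w hn).trans ih.2⟩
  have short : ∀ d w, w.length < d → ¬ (s d).x <:+ w := fun d w h c => by
    have := c.length_le
    rw [len] at this
    omega
  have win : ∀ u d, (s d).T ≤ u → ∃ e u', d ≤ e ∧ u' < t e ∧ u = u' + (s e).T := by
    intro u d hd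
    have hex : ∃ e, u < (s (d + e + 1)).T := ⟨u, by have := Tge (d + u + 1); omega⟩
    have h1 := Nat.find_spec hex
    have h2 : (s (d + Nat.find hex)).T ≤ u := by
      rcases Nat.eq_zero_or_pos (Nat.find hex) with h0 | h0
      · rw [h0]; exact hd
      · have := Nat.find_min hex (m := Nat.find hex - 1) (by omega)
        have e : d + (Nat.find hex - 1) + 1 = d + Nat.find hex := by omega
        rw [e] at this
        omega
    refine ⟨d + Nat.find hex, u - (s (d + Nat.find hex)).T, by omega, ?_, by omega⟩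
    rw [eT] at h1
    omega
  have wk : ∀ e u', walk b R (u' + (s e).T) = (step b)^[u'] (some (s e).x, (s e).R) := by
    intro e u'
    have := (hP e).1
    unfold walk at this ⊢
    rw [Function.iterate_add_apply, this]
  let Ri : List ℕ → ℕ := fun w => (s (w.length + 1)).R w
  let Fi : List ℕ → ℕ → Prop := fun w =>
    if w = (s w.length).x then shift ((s (w.length + 1)).F w) else (s (w.length + 1)).F w
  have eN : nextRotor b R = Ri := by
    refine nextRotor_eq fun w => ⟨(s (w.length + 1)).T, fun u hu => ?_⟩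
    obtain ⟨e, u', h1, h2, rfl⟩ := win u _ hu
    rw [wk, (run e).outside w (short e w (by omega)) u' h2.le]
    exact (stab _ w (short _ w (by omega)) e h1).1
  have off : ∀ d k', k' ≠ k d → ∀ w, (k' :: (s d).x) <:+ w →
      Ri w = (s (d + 1)).R w ∧ Fi w = (s (d + 1)).F w := by
    intro d k' hne w hw
    have hn : ¬ (s (d + 1)).x <:+ w := by
      rw [ex]
      exact fun c => hne (cons_unique hw c)
    have hl : d + 1 ≤ w.length := by
      have := hw.length_le
      rwa [List.length_cons, len] at this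
    have h1 := stab (d + 1) w hn (w.length + 1) (by omega)
    refine ⟨h1.1, ?_⟩
    have h2 : w ≠ (s w.length).x := fun c => hn (c ▸ suf (d + 1) w.length hl)
    simp only [Fi, if_neg h2]
    exact h1.2
  have offG : ∀ d k', k' ≠ k d → GoodOn b (k' :: (s d).x) Ri Fi := fun d k' hne =>
    (gc d k').congr (off d k' hne)
  have onF : ∀ d, Fi (s d).x = shift ((s d).F (s d).x) := by
    intro d
    simp only [Fi, len, if_true]
    rw [eF]
  have onR : ∀ d, Ri (s d).x = k d := by
    intro d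
    simp only [Ri, len]
    exact eR d
  have onS : ∀ d, SolAt b Ri Fi (s d).x := by
    intro d
    unfold SolAt
    rw [onF, onR, eS]
    refine Phi_congr' fun k' _ _ => ?_
    by_cases hk : k' = k d
    · rw [if_pos hk, hk, ← ex, onF]
    · rw [if_neg hk, (off d k' hk _ List.suffix_rfl).2]
  have cases : ∀ w : List ℕ, (∃ d, w = (s d).x) ∨ ∃ d k', k' ≠ k d ∧ (k' :: (s d).x) <:+ w := by
    intro w
    induction w with
    | nil => exact Or.inl ⟨0, by rw [s0]⟩
    | cons a w ih =>
      rcases ih with ⟨d, rfl⟩ | ⟨d, k', h1, h2⟩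
      · by_cases ha : a = k d
        · exact Or.inl ⟨d + 1, by rw [ex, ha]⟩
        · exact Or.inr ⟨d, a, ha, List.suffix_rfl⟩
      · exact Or.inr ⟨d, k', h1, h2.trans (List.suffix_cons _ _)⟩
  rw [eN]
  refine ⟨fun u => ?_, (hG [] List.suffix_rfl).2 hF, fun w => (hP _).2.1 w, Fi, fun w _ => ?_, ?_⟩
  · obtain ⟨e, u', -, h2, rfl⟩ := win u 0 (by rw [s0]; exact Nat.zero_le _)
    obtain ⟨w, -, hw⟩ := (run e).2 u' h2
    rw [wk, hw]
    exact Option.some_ne_none w
  · rcases cases w with ⟨d, rfl⟩ | ⟨d, k', h1, h2⟩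
    · refine ⟨onS d, live_of_sol (onS d) fun k' h1 => ?_⟩
      rw [onR] at h1
      exact (offG d k' (by omega) _ List.suffix_rfl).2
    · exact offG d k' h1 w h2
  · have := onF 0
    rw [s0] at this
    exact this

theorem escapeSeq_eq (n : ℕ) : ∀ (R : List ℕ → ℕ) (F : List ℕ → ℕ → Prop), Valid b R →
    GoodOn b [] R F → (escapeSeq b R n ↔ F [] n) := by
  induction n with
  | zero =>
    intro R F hV hG
    by_cases h : Fn b R []
    · obtain ⟨h1, h2, -⟩ := particle_ret h hV hG
      exact iff_of_false h1 h2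
    · obtain ⟨h1, h2, -⟩ := particle_esc h hV hG
      exact iff_of_true h1 h2
  | succ n ih =>
    intro R F hV hG
    have key : Valid b (nextRotor b R) ∧
        ∃ F', GoodOn b [] (nextRotor b R) F' ∧ F' [] = shift (F []) := by
      by_cases h : Fn b R []
      · exact (particle_ret h hV hG).2.2
      · exact (particle_esc h hV hG).2.2
    obtain ⟨v, F', g, e⟩ := key
    have := ih _ F' v g
    rw [e] at this
    exact this

def app (b R : List ℕ → ℕ) : ℕ → List ℕ → ℕ → Prop
  | 0, v => fun n => n = 0 ∧ ¬ Fn b R v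
  | e + 1, v => Phi (b v) (R v) fun k => app b R e (k :: v)

theorem app_live (R : List ℕ → ℕ) (e : ℕ) : ∀ v, ¬ Fn b R v → app b R e v 0 := by
  induction e with
  | zero => exact fun v h => ⟨rfl, h⟩
  | succ e ih =>
    intro v h
    obtain ⟨k, h1, h2, h3⟩ := not_Fn h
    exact (Phi_zero _ _ _).2 ⟨k, h1, h2, ih _ h3⟩

theorem exists_good (R : List ℕ → ℕ) : ∃ F, GoodOn b [] R F := by
  let U := Filter.hyperfilter ℕ
  let F : List ℕ → ℕ → Prop := fun v n => ∀ᶠ d in (U : Filter ℕ), app b R (d - v.length) v n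
  have lim : ∀ v n, ∀ᶠ d in (U : Filter ℕ), (app b R (d - v.length) v n ↔ F v n) := by
    intro v n
    by_cases h : F v n
    · exact h.mono fun d hd => iff_of_true hd h
    · exact (Ultrafilter.eventually_not.2 h).mono fun d hd => iff_of_false hd h
  refine ⟨F, fun w _ => ⟨?_, fun h => Filter.Eventually.of_forall fun d => app_live R _ w h⟩⟩
  funext n
  have h1 : ∀ᶠ d in (U : Filter ℕ), ∀ k ∈ Finset.range (b w + 1), ∀ i ∈ Finset.range (n + 1),
      (app b R (d - (k :: w).length) (k :: w) i ↔ F (k :: w) i) :=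
    (Filter.eventually_all_finset _).2 fun k _ =>
      (Filter.eventually_all_finset _).2 fun i _ => lim _ i
  have h2 : ∀ᶠ d in (U : Filter ℕ), w.length + 1 ≤ d := by
    apply Filter.Eventually.filter_mono Filter.hyperfilter_le_cofinite
    rw [Nat.cofinite_eq_atTop]
    exact Filter.eventually_ge_atTop _
  obtain ⟨d, ⟨a1, a2⟩, a3⟩ := ((h1.and h2).and (lim w n)).exists
  have e : d - w.length = (d - (w.length + 1)) + 1 := by omega
  rw [← a3, e]
  apply propext
  exact Phi_congr fun k _ hk i hi =>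
    a1 k (Finset.mem_range.2 (by omega)) i (Finset.mem_range.2 (by omega))

open Classical in
noncomputable def newRot (b R : List ℕ → ℕ) (F : List ℕ → ℕ → Prop) (v : List ℕ)
    (g : ℕ → Prop) : ℕ :=
  if F v 0 ∧ ¬ g 0 then b v else R v

theorem exists_children {R : List ℕ → ℕ} {F : List ℕ → ℕ → Prop} (hG : GoodOn b [] R F)
    (v : List ℕ) (g : ℕ → Prop) : ∃ y : ℕ → ℕ → Prop, Le g (F v) →
      (∀ k, Le (y k) (F (k :: v))) ∧ g = Phi (b v) (newRot b R F v g) y := by
  by_cases h : Le g (F v)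
  · have hs := (hG v List.nil_suffix).1
    unfold SolAt at hs
    have h' := h
    rw [hs] at h'
    obtain ⟨y, h1, h2⟩ := inherit _ _ _ g h' (newRot b R F v g) (by
      unfold newRot
      split_ifs with c
      · exact Or.inr ⟨rfl, c.2, by rw [← hs]; exact c.1⟩
      · exact Or.inl rfl)
    exact ⟨y, fun _ => ⟨h1, h2⟩⟩
  · exact ⟨fun _ _ => False, fun c => absurd c h⟩

theorem main (b r : List ℕ → ℕ) (hr : ∀ v, r v ≤ b v) (e' : ℕ → Prop)
    (he : ∀ n, e' n → escapeSeq b r n) :
    ∃ r' : List ℕ → ℕ, (∀ v, r' v ≤ b v) ∧ ∀ n, escapeSeq b r' n ↔ e' n := by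
  classical
  obtain ⟨F, hG⟩ := exists_good (b := b) r
  choose y hy using exists_children hG
  obtain ⟨f, f0, f1⟩ : ∃ f : List ℕ → ℕ → Prop, f [] = e' ∧ ∀ k u, f (k :: u) = y u (f u) k :=
    ⟨fun v => List.rec e' (fun k u g => y u g k) v, rfl, fun _ _ => rfl⟩
  have hle : ∀ v, Le (f v) (F v) := by
    intro v
    induction v with
    | nil =>
      rw [f0]
      exact ⟨id, strictMono_id, fun n hn => ⟨n, rfl, (escapeSeq_eq n r F hr hG).1 (he n hn)⟩⟩
    | cons k u ih => rw [f1]; exact (hy u (f u) ih).1 k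
  obtain ⟨r', er⟩ : ∃ r' : List ℕ → ℕ, ∀ v, r' v = newRot b r F v (f v) := ⟨_, fun _ => rfl⟩
  have hv : ∀ v, r v ≤ r' v ∧ r' v ≤ b v := by
    intro v
    rw [er, newRot]
    split_ifs
    · exact ⟨hr v, le_rfl⟩
    · exact ⟨le_rfl, hr v⟩
  have hG' : GoodOn b [] r' f := by
    intro w _
    refine ⟨?_, fun hn => ?_⟩
    · unfold SolAt
      rw [er]
      simp only [f1]
      exact (hy w (f w) (hle w)).2
    by_contra h0
    apply hn
    by_cases hF : F w 0
    · refine Fn.mk w fun k h1 h2 => ?_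
      rw [er, newRot, if_pos (And.intro hF h0)] at h1
      omega
    · have : Fn b r w := by
        by_contra c
        exact hF ((hG w List.nil_suffix).2 c)
      exact this.mono fun u => (hv u).1
  refine ⟨r', fun v => (hv v).2, fun n => ?_⟩
  rw [← f0]
  exact escapeSeq_eq n r' f (fun v => (hv v).2) hG'

end Pool.Agent.Lib.MP_4b601f_co
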